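import Pool.Agent.Y381.UC.Fin
import Pool.Agent.Y891.UC.PHE
import Pool.Agent.Y177.UC.UPD
import Pool.Agent.Y74.UC.NB
import Pool.Agent.Y693.UC.TZ
import Pool.Agent.Y465.UC.QF
import Pool.Agent.Y675.UC.LD
import Pool.Agent.Y662.UC.Q
import Pool.Agent.Y702.UC.ST
import Pool.Agent.Y436.UC.CUT
import Pool.Agent.TH996.Urn.Kn
import Pool.Agent.TH996.Urn.Crit

/-!
Cycles have no coexistence in the multi-type urn process, for any number of colours
(the conjecture for cycles).
-/

set_option autoImplicit false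

namespace Pool.Agent.Results.MP_747d65_pr.Cycles

open Pool.Agent.TH996.Urn

/-- **Theorem.** For every `k ≥ 3` and every number `s` of colours the cycle of length `k` lies in
the class `𝒢_s`: for every finite initial configuration the `s`-type urn process on the cycle
almost surely has exactly one surviving colour. -/
theorem result (k s : ℕ) (hk : 3 ≤ k) : InClass (SimpleGraph.cycleGraph k) s := by
  rcases Nat.lt_or_ge 3 k with h | h
  · obtain ⟨n, rfl⟩ : ∃ n, k = n + 4 := ⟨k - 4, by omega⟩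
    exact Pool.Agent.Y381.UC.final Pool.Agent.Y891.UC.t_PHE Pool.Agent.Y891.UC.t_PHU
      (Pool.Agent.Y702.UC.t_ST Pool.Agent.Y177.UC.t_UPD Pool.Agent.Y74.UC.NB.t_NB)
      (Pool.Agent.Y693.UC.t_TZ Pool.Agent.Y74.UC.NB.t_NB) Pool.Agent.Y74.UC.NB.t_NB
      Pool.Agent.Y436.UC.t_CUT Pool.Agent.Y465.UC.t_QF Pool.Agent.Y675.UC.t_LD
      Pool.Agent.Y662.UC.t_Q n s
  · obtain rfl : k = 3 := le_antisymm h hk
    have : Nonempty (Fin 3) := ⟨0⟩
    rw [SimpleGraph.cycleGraph_three_eq_top]
    obtain ⟨f, hf, c, hc, N₀, hd⟩ := complete_drift 3 s (by norm_num)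
    exact criterion _ SimpleGraph.connected_top f hf c hc N₀ hd

end Pool.Agent.Results.MP_747d65_pr.Cycles
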