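import Pool.Agent.Y381.UG.Glue

/-!
Large families of graphs with coexistence in the multi-type urn process: three or more copies of a
connected graph, glued together along an arbitrary graph.
-/

set_option autoImplicit false

namespace Pool.Agent.Results.MP_747d65_pr.GluedCopies

open Pool.Agent.TH996.Urn Pool.Agent.Y381.UG

/-- The graph `glued m H Q R` is connected. -/
theorem connected {m : ℕ} (hm : 1 ≤ m) {A B : Type} [Nonempty B] (H : SimpleGraph A)
    (hH : H.Connected) (Q : SimpleGraph B) (R : B → A → Prop) (hR : ∀ b, ∃ a, R b a) :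
    (glued m H Q R).Connected := by
  obtain ⟨b0⟩ := (inferInstance : Nonempty B)
  obtain ⟨a0, ha0⟩ := hR b0
  have hcopy : ∀ (i : Fin m) (a a' : A),
      (glued m H Q R).Reachable (.inl (i, a)) (.inl (i, a')) := by
    intro i a a'
    let g : H →g glued m H Q R := ⟨fun a => .inl (i, a), fun h => ⟨rfl, h⟩⟩
    exact (hH.preconnected a a').map g
  have hadj : ∀ (i : Fin m) (a : A) (b : B), R b a →
      (glued m H Q R).Adj (.inl (i, a)) (.inr b) := fun _ _ _ h => h
  have h1 : ∀ v, (glued m H Q R).Reachable v (.inr b0) := by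
    rintro (⟨i, a⟩ | b)
    · exact (hcopy i a a0).trans (hadj i a0 b0 ha0).reachable
    · obtain ⟨a, ha⟩ := hR b
      have e : (glued m H Q R).Reachable (.inr b) (.inl (⟨0, hm⟩, a)) :=
        (hadj ⟨0, hm⟩ a b ha).symm.reachable
      exact e.trans ((hcopy _ a a0).trans (hadj _ a0 b0 ha0).reachable)
  haveI : Nonempty ((Fin m × A) ⊕ B) := ⟨.inr b0⟩
  exact ⟨fun u v => (h1 u).trans (h1 v).symm⟩

/-- **Theorem.** Let `s ≥ 3` and `m ≥ 3`, let `H` be a finite connected graph with at least two
vertices, `Q` any finite graph with at least one vertex, and for every vertex `b` of `Q` let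
`{a | R b a}` be a nonempty set of vertices of `H`. Take `m` disjoint copies of `H` and the graph
`Q`, and join every `b` to the vertices of `{a | R b a}` in each of the copies. The graph
`glued m H Q R` obtained in this way is connected and does not lie in the class `𝒢_s`. -/
theorem result (s m : ℕ) (hs : 3 ≤ s) (hm : 3 ≤ m) {A B : Type} [Fintype A] [Fintype B]
    [Nontrivial A] [Nonempty B] (H : SimpleGraph A) (hH : H.Connected) (Q : SimpleGraph B)
    (R : B → A → Prop) (hR : ∀ b, ∃ a, R b a) :
    (glued m H Q R).Connected ∧ ¬ InClass (glued m H Q R) s := by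
  refine ⟨connected (by omega) H hH Q R hR, ?_⟩
  obtain ⟨k, rfl⟩ : ∃ k, m = k + 3 := ⟨m - 3, by omega⟩
  exact main hs H hH Q R hR

end Pool.Agent.Results.MP_747d65_pr.GluedCopies
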